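import Mathlib

namespace Pool.Agent.NH73.HC

open Finset

/-- a permutation moving one injective tuple to another one and fixing everything else -/
lemma exists_move {α : Type*} [DecidableEq α] {k : ℕ} (X Y : Fin k → α)
    (hX : Function.Injective X) (hY : Function.Injective Y) :
    ∃ τ : Equiv.Perm α, (∀ t, τ (X t) = Y t) ∧
      ∀ z, z ∉ Set.range X → z ∉ Set.range Y → τ z = z := by
  have key : ∀ T : Finset (Fin k), ∃ τ : Equiv.Perm α, (∀ t ∈ T, τ (X t) = Y t) ∧
      ∀ z, z ∉ Set.range X → z ∉ Set.range Y → τ z = z := by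
    intro T
    induction T using Finset.induction_on with
    | empty => exact ⟨1, fun t h => by simp at h, fun z _ _ => rfl⟩
    | insert t₀ T ht₀ ih =>
      obtain ⟨τ, h1, h2⟩ := ih
      refine ⟨Equiv.swap (τ (X t₀)) (Y t₀) * τ, ?_, ?_⟩
      · intro t ht
        rw [Equiv.Perm.mul_apply]
        rw [mem_insert] at ht
        rcases ht with rfl | ht
        · exact Equiv.swap_apply_left _ _
        · have hne : t ≠ t₀ := fun h => ht₀ (h ▸ ht)
          rw [Equiv.swap_apply_of_ne_of_ne, h1 t ht]
          · intro h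
            exact hne (hX (τ.injective h))
          · rw [h1 t ht]
            intro h
            exact hne (hY h)
      · intro z hz hz'
        rw [Equiv.Perm.mul_apply, h2 z hz hz']
        apply Equiv.swap_apply_of_ne_of_ne
        · intro h
          have : τ z = τ (X t₀) := by rw [h2 z hz hz']; exact h
          exact hz ⟨t₀, (τ.injective this).symm⟩
        · intro h
          exact hz' ⟨t₀, h.symm⟩
  obtain ⟨τ, h1, h2⟩ := key univ
  exact ⟨τ, fun t => h1 t (mem_univ t), h2⟩

/-- Negative dependence for uniformly random bijections. -/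
theorem neg_dep {ι α : Type*} [Fintype ι] [Fintype α] [DecidableEq ι] [DecidableEq α] {k : ℕ}
    (P : Fin k → ι) (X : Fin k ↪ α) (Q : (ι ≃ α) → Prop)
    (hQ : ∀ c : ι ≃ α, (∀ t, c (P t) = X t) → Q c → ∀ Y : Fin k → α, ∀ τ : Equiv.Perm α,
      (∀ t, τ (X t) = Y t) → (∀ z, z ∉ Set.range X → z ∉ Set.range Y → τ z = z) →
      Q (c.trans τ)) (A B : Finset (ι ≃ α))
    (hA : ∀ c ∈ A, (∀ t, c (P t) = X t) ∧ Q c) (hB : ∀ c, Q c → c ∈ B) :
    A.card * (Fintype.card α).descFactorial k ≤ B.card := by
  have hcard : (Fintype.card α).descFactorial k = (univ : Finset (Fin k ↪ α)).card := by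
    rw [card_univ, Fintype.card_embedding_eq, Fintype.card_fin]
  rw [hcard, ← card_product]
  choose τ hτ1 hτ2 using fun Y : Fin k ↪ α => exists_move X Y X.injective Y.injective
  apply card_le_card_of_injOn (fun q => q.1.trans (τ q.2))
  · rintro ⟨c, Y⟩ h
    simp only [coe_product, Set.mem_prod, mem_coe, mem_univ, and_true] at h ⊢
    exact hB _ (hQ c (hA c h).1 (hA c h).2 Y (τ Y) (hτ1 Y) (hτ2 Y))
  · rintro ⟨c, Y⟩ h ⟨c', Y'⟩ h' heq
    simp only [coe_product, Set.mem_prod, mem_coe, mem_univ, and_true] at h h' heq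
    have hY : Y = Y' := by
      ext t
      have e1 : (c.trans (τ Y)) (P t) = Y t := by
        rw [Equiv.trans_apply, (hA c h).1 t, hτ1]
      have e2 : (c'.trans (τ Y')) (P t) = Y' t := by
        rw [Equiv.trans_apply, (hA c' h').1 t, hτ1]
      rw [← e1, heq, e2]
    subst hY
    have hc : c = c' := by
      ext x
      have : (c.trans (τ Y)) x = (c'.trans (τ Y)) x := by rw [heq]
      rw [Equiv.trans_apply, Equiv.trans_apply] at this
      exact (τ Y).injective this
    rw [hc]

end Pool.Agent.NH73.HC
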