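import Pool.Agent.NH73.HC.LLL
import Pool.Agent.NH73.HC.Perm

namespace Pool.Agent.NH73.HC

open Finset

/-- the four positions of two edges of a cyclic ordering -/
def pos {n : ℕ} (q : ZMod n × ZMod n) : Fin 4 → ZMod n := ![q.1, q.1 + 1, q.2, q.2 + 1]

lemma pos_diff {n : ℕ} {q : ZMod n × ZMod n} (h : Function.Injective (pos q)) :
    q.2 - q.1 ≠ 0 ∧ q.2 - q.1 ≠ 1 ∧ q.2 - q.1 ≠ -1 := by
  refine ⟨?_, ?_, ?_⟩
  · intro h0
    have : pos q 0 = pos q 2 := by
      show q.1 = q.2
      linear_combination -h0
    exact absurd (h this) (by decide)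
  · intro h0
    have : pos q 1 = pos q 2 := by
      show q.1 + 1 = q.2
      linear_combination -h0
    exact absurd (h this) (by decide)
  · intro h0
    have : pos q 0 = pos q 3 := by
      show q.1 = q.2 + 1
      linear_combination -h0
    exact absurd (h this) (by decide)

section

variable {n : ℕ} [NeZero n]

/-- admissible differences -/
def DD (n : ℕ) [NeZero n] : Finset (ZMod n) := univ.filter (fun d => d ≠ 0 ∧ d ≠ 1 ∧ d ≠ -1)

lemma small_ne_zero {n : ℕ} (hn : 4 ≤ n) (k : ℕ) (hk0 : 0 < k) (hk : k < 4) :
    ((k : ℕ) : ZMod n) ≠ 0 := by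
  rw [Ne, ZMod.natCast_eq_zero_iff]
  intro h
  have := Nat.le_of_dvd hk0 h
  omega

lemma card_DD (hn : 4 ≤ n) : (DD n).card ≤ n - 3 := by
  have h1 : (1 : ZMod n) ≠ 0 := by
    have := small_ne_zero hn 1 (by norm_num) (by norm_num)
    simpa using this
  have h2 : (2 : ZMod n) ≠ 0 := by
    have := small_ne_zero hn 2 (by norm_num) (by norm_num)
    simpa using this
  have hsub : DD n ⊆ univ \ {0, 1, -1} := by
    intro d hd
    rw [DD, mem_filter] at hd
    simp only [mem_sdiff, mem_univ, mem_insert, mem_singleton, true_and]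
    tauto
  have h3 : ({0, 1, -1} : Finset (ZMod n)).card = 3 := by
    rw [card_eq_three]
    refine ⟨0, 1, -1, h1.symm, ?_, ?_, rfl⟩
    · intro h
      apply h1
      linear_combination h
    · intro h
      apply h2
      linear_combination h
  calc (DD n).card ≤ (univ \ ({0, 1, -1} : Finset (ZMod n))).card := card_le_card hsub
    _ = n - 3 := by
      rw [card_sdiff_of_subset (subset_univ _), h3, card_univ, ZMod.card]

open Classical in
/-- admissible pairs of edges -/
noncomputable def VV (n : ℕ) [NeZero n] : Finset (ZMod n × ZMod n) :=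
  univ.filter (fun q => Function.Injective (pos q))

lemma card_VV (hn : 4 ≤ n) : (VV n).card ≤ n * (n - 3) := by
  have h1 : (VV n).card ≤ ((univ : Finset (ZMod n)) ×ˢ DD n).card := by
    apply card_le_card_of_injOn (fun q => (q.1, q.2 - q.1))
    · intro q hq
      simp only [VV, coe_filter, mem_univ, true_and, Set.mem_ofPred_eq] at hq
      simp only [coe_product, Set.mem_prod, mem_coe, mem_univ, true_and, DD, mem_filter]
      exact pos_diff hq
    · intro q _ q' _ h
      simp only [Prod.mk.injEq] at h
      apply Prod.ext h.1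
      have := h.2
      rw [h.1] at this
      linear_combination this
  rw [card_product, card_univ, ZMod.card] at h1
  exact h1.trans (Nat.mul_le_mul_left _ (card_DD hn))

lemma card_VV_pos (hn : 4 ≤ n) (x : ZMod n) :
    ((VV n).filter (fun q => ∃ t, pos q t = x)).card ≤ 4 * (n - 3) := by
  have h1 : (VV n).filter (fun q => ∃ t, pos q t = x) ⊆
      (univ : Finset (Fin 4)).biUnion (fun t => (VV n).filter (fun q => pos q t = x)) := by
    intro q hq
    rw [mem_filter] at hq
    obtain ⟨hq, t, ht⟩ := hq
    rw [mem_biUnion]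
    exact ⟨t, mem_univ _, mem_filter.2 ⟨hq, ht⟩⟩
  refine (card_le_card h1).trans (card_biUnion_le.trans ?_)
  have h2 : ∀ t ∈ (univ : Finset (Fin 4)),
      ((VV n).filter (fun q => pos q t = x)).card ≤ n - 3 := by
    intro t _
    refine le_trans ?_ (card_DD hn)
    apply card_le_card_of_injOn (fun q => q.2 - q.1)
    · intro q hq
      simp only [VV, coe_filter, mem_filter, mem_univ, true_and, Set.mem_ofPred_eq] at hq
      simp only [DD, mem_coe, mem_filter, mem_univ, true_and]
      exact pos_diff hq.1
    · intro q hq q' hq' h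
      simp only [coe_filter, Set.mem_ofPred_eq] at hq hq'
      have e : pos q t = pos q' t := hq.2.trans hq'.2.symm
      simp only at h
      fin_cases t
      · have e' : q.1 = q'.1 := e
        exact Prod.ext e' (by linear_combination h + e')
      · have e' : q.1 + 1 = q'.1 + 1 := e
        exact Prod.ext (by linear_combination e') (by linear_combination h + e')
      · have e' : q.2 = q'.2 := e
        exact Prod.ext (by linear_combination e' - h) e'
      · have e' : q.2 + 1 = q'.2 + 1 := e
        exact Prod.ext (by linear_combination e' - h) (by linear_combination e')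
  calc ∑ t ∈ (univ : Finset (Fin 4)), ((VV n).filter (fun q => pos q t = x)).card
      ≤ ∑ _t ∈ (univ : Finset (Fin 4)), (n - 3) := sum_le_sum h2
    _ = 4 * (n - 3) := by rw [sum_const, card_univ, Fintype.card_fin, smul_eq_mul]

end

open Classical in
/-- orderings of the members of a family of 4-sets -/
noncomputable def WW {n : ℕ} (F : Finset (Finset (Fin n))) : Finset (Fin 4 ↪ Fin n) :=
  univ.filter (fun X => univ.map X ∈ F)

open Classical in
lemma card_fiber {n : ℕ} (Y : Finset (Fin n)) (hY : Y.card = 4) :
    (univ.filter (fun X : Fin 4 ↪ Fin n => univ.map X = Y)).card ≤ 24 := by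
  have h1 : univ.filter (fun X : Fin 4 ↪ Fin n => univ.map X = Y) ⊆
      (univ : Finset (Fin 4 ↪ {y // y ∈ Y})).image
        (fun g => g.trans (Function.Embedding.subtype _)) := by
    intro X hX
    rw [mem_filter] at hX
    rw [mem_image]
    have hmem : ∀ t, X t ∈ Y := by
      intro t
      rw [← hX.2]
      exact mem_map_of_mem X (mem_univ t)
    refine ⟨⟨fun t => ⟨X t, hmem t⟩, fun s t h => X.injective (by simpa using h)⟩,
      mem_univ _, ?_⟩
    ext t
    rfl
  refine (card_le_card h1).trans (card_image_le.trans ?_)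
  rw [card_univ, Fintype.card_embedding_eq, Fintype.card_fin, Fintype.card_coe, hY]
  decide

lemma card_WW {n : ℕ} (F : Finset (Finset (Fin n))) (h4 : ∀ X ∈ F, X.card = 4) :
    (WW F).card ≤ 24 * F.card := by
  classical
  have h1 : WW F ⊆ F.biUnion (fun Y => univ.filter (fun X : Fin 4 ↪ Fin n => univ.map X = Y)) := by
    intro X hX
    rw [WW, mem_filter] at hX
    rw [mem_biUnion]
    exact ⟨univ.map X, hX.2, mem_filter.2 ⟨mem_univ _, rfl⟩⟩
  refine (card_le_card h1).trans (card_biUnion_le.trans ?_)
  calc ∑ Y ∈ F, (univ.filter (fun X : Fin 4 ↪ Fin n => univ.map X = Y)).card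
      ≤ ∑ _Y ∈ F, 24 := sum_le_sum (fun Y hY => card_fiber Y (h4 Y hY))
    _ = 24 * F.card := by rw [sum_const, smul_eq_mul, mul_comm]

/-- A sparse regular family of 4-sets does not block all Hamilton cycles. -/
theorem core {n : ℕ} (hn : 4 ≤ n) (F : Finset (Finset (Fin n))) (h4 : ∀ X ∈ F, X.card = 4)
    (hreg : ∀ x, n * (F.filter (fun X => x ∈ X)).card = 4 * F.card)
    (hF : 3072 * F.card ≤ n * (n - 1) * (n - 2)) :
    ∃ c : ZMod n ≃ Fin n, ∀ i j : ZMod n,
      Disjoint ({c i, c (i + 1)} : Finset (Fin n)) {c j, c (j + 1)} →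
      ({c i, c (i + 1)} ∪ {c j, c (j + 1)} : Finset (Fin n)) ∉ F := by
  classical
  have : NeZero n := ⟨by omega⟩
  set E : ((ZMod n × ZMod n) × (Fin 4 ↪ Fin n)) → (ZMod n ≃ Fin n) → Prop :=
    fun M c => ∀ t, c (pos M.1 t) = M.2 t with hE
  set adj : ((ZMod n × ZMod n) × (Fin 4 ↪ Fin n)) → ((ZMod n × ZMod n) × (Fin 4 ↪ Fin n)) →
    Prop := fun M M' => (∃ s, M.2 s ∈ univ.map M'.2) ∨ (∃ s t, pos M'.1 t = pos M.1 s) with hadj
  have : Nonempty (ZMod n ≃ Fin n) := by
    rw [← Fintype.card_eq, ZMod.card, Fintype.card_fin]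
  have hdf : n.descFactorial 4 = n * (n - 1) * (n - 2) * (n - 3) := by
    simp only [Nat.descFactorial]
    ring_nf
    simp only [Nat.sub_zero]
  have hdf24 : 24 ≤ n.descFactorial 4 := by
    rw [hdf]
    obtain ⟨m, rfl⟩ := Nat.exists_eq_add_of_le hn
    have e1 : 4 + m - 1 = m + 3 := by omega
    have e2 : 4 + m - 2 = m + 2 := by omega
    have e3 : 4 + m - 3 = m + 1 := by omega
    rw [e1, e2, e3]
    nlinarith [Nat.zero_le m, Nat.zero_le (m * m), Nat.zero_le (m * m * m)]
  have hdfR : (24 : ℝ) ≤ (n.descFactorial 4 : ℕ) := by exact_mod_cast hdf24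
  have hdf0 : (0 : ℝ) < (n.descFactorial 4 : ℕ) := by linarith
  obtain ⟨c, hc⟩ := lopsided_lll E ((VV n) ×ˢ (WW F)) adj (1 / (n.descFactorial 4 : ℕ))
    (768 * (n - 3) * F.card) (by positivity)
    (by
      rw [mul_one_div, div_lt_one hdf0]
      linarith)
    (by
      rw [mul_one_div, div_mul_eq_mul_div, div_le_one hdf0]
      have : 4 * (768 * (n - 3) * F.card) ≤ n.descFactorial 4 := by
        rw [hdf]
        calc 4 * (768 * (n - 3) * F.card) = (3072 * F.card) * (n - 3) := by ring
          _ ≤ (n * (n - 1) * (n - 2)) * (n - 3) := Nat.mul_le_mul_right _ hF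
      exact_mod_cast this)
    (by
      intro M hM T hT hTadj
      refine le_trans (card_le_card (show _ ⊆
          (univ : Finset (Fin 4)).biUnion (fun s =>
            ((VV n) ×ˢ (WW (F.filter (fun X => M.2 s ∈ X)))) ∪
            (((VV n).filter (fun q => ∃ t, pos q t = pos M.1 s)) ×ˢ (WW F))) from ?_))
          (card_biUnion_le.trans ?_)
      · intro M' hM'
        obtain ⟨hV, hW⟩ := mem_product.1 (hT hM')
        have hA := hTadj M' hM'
        rw [mem_biUnion]
        rcases hA with ⟨s, hs⟩ | ⟨s, t, hst⟩
        · refine ⟨s, mem_univ _, mem_union_left _ ?_⟩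
          rw [mem_product]
          refine ⟨hV, ?_⟩
          rw [WW, mem_filter] at hW ⊢
          exact ⟨mem_univ _, mem_filter.2 ⟨hW.2, hs⟩⟩
        · refine ⟨s, mem_univ _, mem_union_right _ ?_⟩
          rw [mem_product]
          exact ⟨mem_filter.2 ⟨hV, t, hst⟩, hW⟩
      have hs : ∀ s ∈ (univ : Finset (Fin 4)),
          (((VV n) ×ˢ (WW (F.filter (fun X => M.2 s ∈ X)))) ∪
            (((VV n).filter (fun q => ∃ t, pos q t = pos M.1 s)) ×ˢ (WW F))).card ≤
          192 * (n - 3) * F.card := by
        intro s _
        refine (card_union_le _ _).trans ?_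
        rw [card_product, card_product]
        have a1 := card_VV hn (n := n)
        have a2 := card_VV_pos hn (pos M.1 s)
        have a3 := card_WW F h4
        have a4 := card_WW (F.filter (fun X => M.2 s ∈ X)) (fun X hX => h4 X (mem_filter.1 hX).1)
        have b1 := Nat.mul_le_mul a1 a4
        have b2 := Nat.mul_le_mul a2 a3
        have b3 : n * (n - 3) * (24 * (F.filter (fun X => M.2 s ∈ X)).card) =
            96 * (n - 3) * F.card := by
          calc n * (n - 3) * (24 * (F.filter (fun X => M.2 s ∈ X)).card)
              = 24 * (n - 3) * (n * (F.filter (fun X => M.2 s ∈ X)).card) := by ring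
            _ = 24 * (n - 3) * (4 * F.card) := by rw [hreg]
            _ = _ := by ring
        have b4 : 4 * (n - 3) * (24 * F.card) = 96 * (n - 3) * F.card := by ring
        rw [b3] at b1
        rw [b4] at b2
        calc _ ≤ 96 * (n - 3) * F.card + 96 * (n - 3) * F.card := Nat.add_le_add b1 b2
          _ = _ := by ring
      calc _ ≤ ∑ _s ∈ (univ : Finset (Fin 4)), 192 * (n - 3) * F.card := sum_le_sum hs
        _ = 768 * (n - 3) * F.card := by
          rw [sum_const, card_univ, Fintype.card_fin, smul_eq_mul]; ring)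
    (by
      intro M hM S hS hnon A B hA hB
      have key : A.card * n.descFactorial 4 ≤ B.card := by
        have h0 := neg_dep (P := pos M.1) (X := M.2) (Q := fun c => ∀ M' ∈ S, ¬ E M' c) (by
          intro c hcM hcQ Y τ hτ1 hτ2 M' hM' hEc
          apply hcQ M' hM'
          intro t
          have hn := hnon M' hM'
          rw [hadj] at hn
          simp only [not_or, not_exists] at hn
          have hw : M'.2 t ∉ Set.range M.2 := by
            rintro ⟨s, hs⟩
            apply hn.1 s
            rw [hs]
            exact mem_map_of_mem _ (mem_univ t)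
          have hz : c (pos M'.1 t) ∉ Set.range M.2 := by
            rintro ⟨s, hs⟩
            rw [← hcM s] at hs
            exact hn.2 s t (c.injective hs).symm
          have ht : τ (c (pos M'.1 t)) = M'.2 t := hEc t
          by_cases hY : M'.2 t ∈ Set.range Y
          · obtain ⟨s, hs⟩ := hY
            exfalso
            apply hz
            refine ⟨s, ?_⟩
            apply τ.injective
            rw [hτ1 s, ht, hs]
          · have e := hτ2 _ hw hY
            apply τ.injective
            rw [ht, e]) A B hA hB
        rwa [Fintype.card_fin] at h0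
      rw [one_div, inv_mul_eq_div, le_div_iff₀ hdf0]
      exact_mod_cast key)
  refine ⟨c, ?_⟩
  intro i j hdisj hmem
  have hcard : ({c i, c (i + 1)} ∪ {c j, c (j + 1)} : Finset (Fin n)).card = 4 := h4 _ hmem
  have hii : c i ≠ c (i + 1) := by
    intro h
    have h1 := small_ne_zero hn 1 (by norm_num) (by norm_num)
    apply h1
    have := c.injective h
    push_cast
    linear_combination -this
  have hjj : c j ≠ c (j + 1) := by
    intro h
    have h1 := small_ne_zero hn 1 (by norm_num) (by norm_num)
    apply h1
    have := c.injective h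
    push_cast
    linear_combination -this
  rw [Finset.disjoint_left] at hdisj
  have d1 : c i ≠ c j := fun h => hdisj (a := c i) (by simp) (by rw [h]; simp)
  have d2 : c i ≠ c (j + 1) := fun h => hdisj (a := c i) (by simp) (by rw [h]; simp)
  have d3 : c (i + 1) ≠ c j := fun h => hdisj (a := c (i + 1)) (by simp) (by rw [h]; simp)
  have d4 : c (i + 1) ≠ c (j + 1) :=
    fun h => hdisj (a := c (i + 1)) (by simp) (by rw [h]; simp)
  have hinj : Function.Injective (fun t => c (pos (i, j) t)) := by
    intro s t hst
    fin_cases s <;> fin_cases t <;>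
      first
        | rfl
        | exact absurd hst hii
        | exact absurd hst hii.symm
        | exact absurd hst hjj
        | exact absurd hst hjj.symm
        | exact absurd hst d1
        | exact absurd hst d1.symm
        | exact absurd hst d2
        | exact absurd hst d2.symm
        | exact absurd hst d3
        | exact absurd hst d3.symm
        | exact absurd hst d4
        | exact absurd hst d4.symm
  have hposinj : Function.Injective (pos (i, j)) := fun s t h => hinj (by simp only [h])
  refine hc ((i, j), ⟨fun t => c (pos (i, j) t), hinj⟩) ?_ (fun t => rfl)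
  rw [mem_product]
  constructor
  · rw [VV, mem_filter]
    exact ⟨mem_univ _, hposinj⟩
  · rw [WW, mem_filter]
    refine ⟨mem_univ _, ?_⟩
    convert hmem using 1
    ext z
    simp only [mem_map, mem_univ, true_and, Function.Embedding.coeFn_mk, mem_union, mem_insert,
      mem_singleton]
    constructor
    · rintro ⟨t, rfl⟩
      fin_cases t <;> simp [pos]
    · rintro ((rfl | rfl) | (rfl | rfl))
      · exact ⟨0, rfl⟩
      · exact ⟨1, rfl⟩
      · exact ⟨2, rfl⟩
      · exact ⟨3, rfl⟩

end Pool.Agent.NH73.HC
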