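import Mathlib

namespace Pool.Agent.NH73.HC

open Finset

open Classical in
/-- Lopsided Lovasz local lemma, symmetric form, for a uniform finite probability space. -/
theorem lopsided_lll {Ω I : Type*} [Fintype Ω] [Nonempty Ω]
    (E : I → Ω → Prop) (MM : Finset I) (adj : I → I → Prop)
    (p : ℝ) (D : ℕ) (hp : 0 ≤ p) (hp2 : 2 * p < 1) (hpD : 4 * p * D ≤ 1)
    (hD : ∀ M ∈ MM, ∀ T ⊆ MM, (∀ M' ∈ T, adj M M') → T.card ≤ D)
    (hneg : ∀ M ∈ MM, ∀ S ⊆ MM, (∀ M' ∈ S, ¬ adj M M') → ∀ A B : Finset Ω,
      (∀ c ∈ A, E M c ∧ ∀ M' ∈ S, ¬ E M' c) → (∀ c, (∀ M' ∈ S, ¬ E M' c) → c ∈ B) →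
      (A.card : ℝ) ≤ p * (B.card : ℝ)) :
    ∃ c, ∀ M ∈ MM, ¬ E M c := by
  set A : Finset I → Finset Ω := fun S => univ.filter (fun c => ∀ M' ∈ S, ¬ E M' c) with hA
  set B : I → Finset I → Finset Ω :=
    fun M S => univ.filter (fun c => E M c ∧ ∀ M' ∈ S, ¬ E M' c) with hB
  have key : ∀ k : ℕ, ∀ S ⊆ MM, S.card ≤ k → ∀ M ∈ MM,
      ((B M S).card : ℝ) ≤ 2 * p * ((A S).card : ℝ) := by
    intro k
    induction k with
    | zero =>
      intro S hS hk M hM
      have hS0 : S = ∅ := card_eq_zero.1 (Nat.le_zero.1 hk)
      have := hneg M hM S hS (by rw [hS0]; intro M' h; simp at h) (B M S) (A S)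
        (fun c hc => (mem_filter.1 hc).2) (fun c hc => mem_filter.2 ⟨mem_univ _, hc⟩)
      have h0 : (0 : ℝ) ≤ p * ((A S).card : ℝ) := by positivity
      calc ((B M S).card : ℝ) ≤ p * ((A S).card : ℝ) := this
        _ ≤ 2 * p * ((A S).card : ℝ) := by linarith
    | succ k ih =>
      intro S hS hk M hM
      set S2 := S.filter (fun M' => ¬ adj M M') with hS2
      set S1 := S.filter (fun M' => adj M M') with hS1
      have hS2S : S2 ⊆ S := filter_subset _ _
      have h1 : ((B M S2).card : ℝ) ≤ p * ((A S2).card : ℝ) :=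
        hneg M hM S2 (hS2S.trans hS) (fun M' h => (mem_filter.1 h).2) (B M S2) (A S2)
          (fun c hc => (mem_filter.1 hc).2) (fun c hc => mem_filter.2 ⟨mem_univ _, hc⟩)
      have h2 : ((B M S).card : ℝ) ≤ (B M S2).card := by
        have : B M S ⊆ B M S2 := by
          intro c hc
          simp only [hB, mem_filter] at hc ⊢
          exact ⟨mem_univ _, hc.2.1, fun M' h => hc.2.2 M' (hS2S h)⟩
        exact_mod_cast card_le_card this
      by_cases hempty : S1 = ∅
      · have hSeq : S2 = S := by
          rw [hS2, filter_eq_self]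
          intro M' hM' hadj
          have : M' ∈ S1 := mem_filter.2 ⟨hM', hadj⟩
          rw [hempty] at this
          simp at this
        rw [hSeq] at h1
        have h0 : (0 : ℝ) ≤ p * ((A S).card : ℝ) := by positivity
        linarith
      · have hlt : S2.card ≤ k := by
          have hcard : S1.card + S2.card = S.card := card_filter_add_card_filter_not _
          have : 0 < S1.card := card_pos.2 (nonempty_iff_ne_empty.2 hempty)
          omega
        have hcov : A S2 ⊆ A S ∪ S1.biUnion (fun M' => B M' S2) := by
          intro c hc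
          simp only [hA, mem_filter] at hc
          by_cases hin : ∀ M' ∈ S, ¬ E M' c
          · exact mem_union_left _ (mem_filter.2 ⟨mem_univ _, hin⟩)
          · push Not at hin
            obtain ⟨M', hM', hE⟩ := hin
            apply mem_union_right
            rw [mem_biUnion]
            have hadj : adj M M' := by
              by_contra hn
              exact hc.2 M' (mem_filter.2 ⟨hM', hn⟩) hE
            refine ⟨M', mem_filter.2 ⟨hM', hadj⟩, ?_⟩
            simp only [hB, mem_filter]
            exact ⟨mem_univ _, hE, hc.2⟩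
        have h3 : ((A S2).card : ℝ) ≤ (A S).card + ∑ M' ∈ S1, ((B M' S2).card : ℝ) := by
          have e1 := card_le_card hcov
          have e2 := card_union_le (A S) (S1.biUnion (fun M' => B M' S2))
          have e3 : (S1.biUnion (fun M' => B M' S2)).card ≤ ∑ M' ∈ S1, (B M' S2).card :=
            card_biUnion_le
          have : (A S2).card ≤ (A S).card + ∑ M' ∈ S1, (B M' S2).card := by omega
          exact_mod_cast this
        have h4 : ∑ M' ∈ S1, ((B M' S2).card : ℝ) ≤ S1.card * (2 * p * ((A S2).card : ℝ)) := by
          rw [← nsmul_eq_mul, ← sum_const]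
          apply sum_le_sum
          intro M' hM'
          exact ih S2 (hS2S.trans hS) hlt M' (hS (mem_filter.1 hM').1)
        have h5 : (S1.card : ℝ) ≤ D := by
          exact_mod_cast hD M hM S1 ((filter_subset _ _).trans hS)
            (fun M' h => (mem_filter.1 h).2)
        have h6 : (S1.card : ℝ) * (2 * p * ((A S2).card : ℝ)) ≤ (1 / 2) * ((A S2).card : ℝ) := by
          have e1 : (S1.card : ℝ) * (2 * p * ((A S2).card : ℝ)) ≤
              D * (2 * p * ((A S2).card : ℝ)) :=
            mul_le_mul_of_nonneg_right h5 (by positivity)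
          have e2 : (D : ℝ) * (2 * p * ((A S2).card : ℝ)) =
              (4 * p * D) * ((1 / 2) * ((A S2).card : ℝ)) := by ring
          have e3 : (4 * p * D) * ((1 / 2) * ((A S2).card : ℝ)) ≤
              1 * ((1 / 2) * ((A S2).card : ℝ)) :=
            mul_le_mul_of_nonneg_right hpD (by positivity)
          linarith
        have h7 : ((A S2).card : ℝ) ≤ 2 * (A S).card := by linarith
        have h8 : p * ((A S2).card : ℝ) ≤ p * (2 * ((A S).card : ℝ)) :=
          mul_le_mul_of_nonneg_left h7 hp
        linarith
  have pos : ∀ S : Finset I, S ⊆ MM → 0 < (A S).card := by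
    intro S
    induction S using Finset.induction_on with
    | empty =>
      intro _
      rw [card_pos]
      obtain ⟨c⟩ := (inferInstance : Nonempty Ω)
      exact ⟨c, mem_filter.2 ⟨mem_univ _, fun M' h => by simp at h⟩⟩
    | insert M S hM ih =>
      intro hS
      have hS' : S ⊆ MM := (subset_insert _ _).trans hS
      have hMM : M ∈ MM := hS (mem_insert_self _ _)
      have h0 := ih hS'
      have h1 := key S.card S hS' le_rfl M hMM
      have h2 : A S ⊆ A (insert M S) ∪ B M S := by
        intro c hc
        simp only [hA, hB, mem_filter, mem_union] at hc ⊢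
        by_cases hE : E M c
        · right; exact ⟨mem_univ _, hE, hc.2⟩
        · left
          refine ⟨mem_univ _, ?_⟩
          intro M' hM'
          rw [mem_insert] at hM'
          rcases hM' with rfl | h
          · exact hE
          · exact hc.2 M' h
      have h3 : ((A S).card : ℝ) ≤ (A (insert M S)).card + (B M S).card := by
        exact_mod_cast (card_le_card h2).trans (card_union_le _ _)
      have h4 : (0 : ℝ) < (A S).card := by exact_mod_cast h0
      have h5 : (0 : ℝ) < (A (insert M S)).card := by nlinarith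
      exact_mod_cast h5
  obtain ⟨c, hc⟩ := card_pos.1 (pos MM subset_rfl)
  exact ⟨c, (mem_filter.1 hc).2⟩

end Pool.Agent.NH73.HC
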